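import Pool.Agent.Q139.Baz.Main

set_option autoImplicit false

/-!
# MP_0e1b7e_an: coefficient bounds for the Bazilevic class `B_1(α)`, `0 < α < 1`

We prove `|a_n| ≤ b_n(α)` for every `0 < α < 1`, every `f ∈ B_1(α)` and every `n ≥ 2`, where `b_n(α)`
are the coefficients of the extremal function `g` with `g'(z) (g(z)/z)^(α-1) = (1+z)/(1-z)`.

Idea of the proof. Let `τ_k = α/(k+α)`, `G = 1 + ∑ 2 τ_k z^k = (g/z)^α` and
`H = (f/z)^α = ∑ G_k c_k z^k` with the moments `c_k` of a probability measure on the unit circle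
(finitely many atoms are enough after `z ↦ R z` and truncation). Put `K = 1/(1-z)`.

* `energy`: for `P = u H + (1-u) G` and `X = G/P`, the partial sums `v` of `X - 1` satisfy
  `((1-u)/u) |v|^2 ≤ 2 Re v`. This comes from the energies `E_j = ∑ ν_i |s_j(ζ_i)|^2` of
  `s(ζ) = T(ζ z) X(z)`, where `T = ∑ τ_k z^k = 1/(1 - B)` with `B` having nonnegative coefficients
  (Kaluza), from Cauchy-Schwarz, and from the atom of mass `1 - u` at the point `1`.
* `level`: hence `|[z^n] K H/P| ≤ 1` for all `0 < u < 1`.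
* `xbound`: `(H/G)^γ` is the average of `H/P_u` with respect to the Beta distribution of `u`, so
  `|[z^n] K (H/G)^γ| ≤ 1` for `0 < γ ≤ 1`.
* `bound_one`, `bound_all`: multiplying with the nonnegative series `(1-z) z G'(z) G^γ` and
  differentiating `H^(γ+1)`, one gets `|[z^m] H^δ| ≤ [z^m] G^δ` for all `δ > 1`; take `δ = 1/α`.
-/

namespace Pool.Agent.Results.MP_0e1b7e_an.CoefBound

open Complex Metric

/-- The class `𝒜`: `f` is analytic on the open unit disc with `f(0) = 0` and `f'(0) = 1`. -/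
structure InA (f : ℂ → ℂ) : Prop where
  diff : DifferentiableOn ℂ f (ball 0 1)
  zero : f 0 = 0
  one : deriv f 0 = 1

/-- `l` is the analytic branch of `log (f(z)/z)` on the unit disc with `l(0) = 0`. -/
structure IsLogBranch (f l : ℂ → ℂ) : Prop where
  diff : DifferentiableOn ℂ l (ball 0 1)
  zero : l 0 = 0
  eq : ∀ z ∈ ball (0 : ℂ) 1, f z = z * exp (l z)

/-- `(f(z)/z)^(α-1) f'(z)`, the power being the branch `exp ((α-1) l(z))`. -/
noncomputable def bazExpr (α : ℝ) (f l : ℂ → ℂ) (z : ℂ) : ℂ :=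
  exp (((α : ℂ) - 1) * l z) * deriv f z

/-- The Bazilevic class `B_1(α)`: `f ∈ 𝒜`, `f(z)/z ≠ 0`, and `Re ((f(z)/z)^(α-1) f'(z)) > 0` on the
unit disc, where the power is the branch equal to `1` at `0`. -/
def InB1 (α : ℝ) (f : ℂ → ℂ) : Prop :=
  InA f ∧ (∀ z ∈ ball (0 : ℂ) 1, z ≠ 0 → f z ≠ 0) ∧
    ∃ l, IsLogBranch f l ∧ ∀ z ∈ ball (0 : ℂ) 1, 0 < (bazExpr α f l z).re

/-- `g` is the extremal function: `g ∈ 𝒜` and `(g(z)/z)^(α-1) g'(z) = (1+z)/(1-z)` on the unit
disc. -/
def IsExtremal (α : ℝ) (g : ℂ → ℂ) : Prop :=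
  InA g ∧ ∃ l, IsLogBranch g l ∧ ∀ z ∈ ball (0 : ℂ) 1, bazExpr α g l z = (1 + z) / (1 - z)

/-- The `n`-th Taylor coefficient of `f` at `0`. -/
noncomputable def coef (f : ℂ → ℂ) (n : ℕ) : ℂ := iteratedDeriv n f 0 / (n.factorial : ℂ)

/-- A remark on the definition: for `f ∈ 𝒜` with `f(z)/z ≠ 0` the branch always exists. -/
theorem branch_exists (f : ℂ → ℂ) (hA : InA f) (hne : ∀ z ∈ ball (0 : ℂ) 1, z ≠ 0 → f z ≠ 0) :
    ∃ l, IsLogBranch f l := by
  have hnhds : ball (0 : ℂ) 1 ∈ nhds (0 : ℂ) := ball_mem_nhds 0 one_pos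
  have hF : DifferentiableOn ℂ (dslope f 0) (ball 0 1) :=
    (Complex.differentiableOn_dslope hnhds).2 hA.diff
  obtain ⟨F, hFd⟩ : ∃ F, F = dslope f 0 := ⟨_, rfl⟩
  rw [← hFd] at hF
  have hF0 : F 0 = 1 := by rw [hFd, dslope_same, hA.one]
  have hFz : ∀ z, f z = z * F z := by
    intro z
    have := sub_smul_dslope f 0 z
    rw [sub_zero, hA.zero, sub_zero, smul_eq_mul, ← hFd] at this
    exact this.symm
  have hFne : ∀ z ∈ ball (0 : ℂ) 1, F z ≠ 0 := by
    intro z hz h0
    by_cases hz0 : z = 0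
    · rw [hz0, hF0] at h0; exact one_ne_zero h0
    · apply hne z hz hz0
      rw [hFz, h0, mul_zero]
  have hq : DifferentiableOn ℂ (fun z => deriv F z / F z) (ball 0 1) :=
    (hF.deriv isOpen_ball).div hF hFne
  obtain ⟨l, hl0, hl⟩ := (hq.isExactOn_ball).with_val_at 0 0
  have hFder : ∀ z ∈ ball (0 : ℂ) 1, HasDerivAt F (deriv F z) z := fun z hz =>
    (hF.differentiableAt (isOpen_ball.mem_nhds hz)).hasDerivAt
  have hΦ : ∀ z ∈ ball (0 : ℂ) 1, HasDerivAt (fun w => F w * exp (- l w)) 0 z := by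
    intro z hz
    have h1 := (hFder z hz).mul ((hl z hz).neg.cexp)
    have h2 : deriv F z * exp (-l z) + F z * (exp (-l z) * -(deriv F z / F z)) = 0 := by
      have := hFne z hz
      field_simp
      ring
    exact h2 ▸ h1
  have hconst : ∀ z ∈ ball (0 : ℂ) 1, F z * exp (- l z) = 1 := by
    intro z hz
    have h1 : (fun w => F w * exp (- l w)) z = (fun w => F w * exp (- l w)) 0 := by
      apply isOpen_ball.is_const_of_deriv_eq_zero (convex_ball (0 : ℂ) 1).isPreconnected
        (fun w hw => (hΦ w hw).differentiableAt.differentiableWithinAt)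
        (fun w hw => (hΦ w hw).deriv) hz (mem_ball_self one_pos)
    simp only [hF0, hl0, neg_zero, exp_zero, mul_one] at h1
    exact h1
  refine ⟨l, ⟨fun z hz => (hl z hz).differentiableAt.differentiableWithinAt, hl0, ?_⟩⟩
  intro z hz
  rw [hFz z]
  have h1 := hconst z hz
  rw [exp_neg] at h1
  have h2 := exp_ne_zero (l z)
  field_simp at h1
  rw [h1]

lemma toBranch {f l : ℂ → ℂ} (h : IsLogBranch f l) : Q139.Baz.LogBranch f l :=
  ⟨h.diff, h.zero, h.eq⟩

theorem result (α : ℝ) (h0 : 0 < α) (h1 : α < 1) :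
    (∃ g, IsExtremal α g) ∧
    ∀ g, IsExtremal α g → InB1 α g ∧
      ∀ n, 2 ≤ n → (coef g n).im = 0 ∧ ∀ f, InB1 α f → ‖coef f n‖ ≤ (coef g n).re := by
  have hInA : ∀ g l : ℂ → ℂ, IsLogBranch g l → InA g := by
    intro g l h
    refine ⟨?_, ?_, ?_⟩
    · have : DifferentiableOn ℂ (fun w => w * exp (l w)) (ball 0 1) :=
        differentiableOn_id.mul h.diff.cexp
      exact this.congr h.eq
    · rw [h.eq 0 (mem_ball_self one_pos), zero_mul]
    · rw [Q139.Baz.deriv_f (toBranch h) (mem_ball_self one_pos), h.zero]; simp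
  refine ⟨?_, ?_⟩
  · obtain ⟨g, l, hl, hext⟩ := Q139.Baz.exists_extremal h0 h1.le
    have hl' : IsLogBranch g l := ⟨hl.1, hl.2.1, hl.2.2⟩
    exact ⟨g, hInA g l hl', l, hl', hext⟩
  · rintro g ⟨hgA, lg, hlg, hext⟩
    refine ⟨⟨hgA, ?_, lg, hlg, ?_⟩, ?_⟩
    · intro z hz hz0
      rw [hlg.eq z hz]
      exact mul_ne_zero hz0 (exp_ne_zero _)
    · intro z hz
      rw [hext z hz]
      rw [mem_ball_zero_iff] at hz
      have hn : 0 < normSq (1 - z) := by
        rw [normSq_pos]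
        intro h
        have : z = 1 := by linear_combination -h
        rw [this, norm_one] at hz
        exact lt_irrefl _ hz
      have h2 : ((1 + z) / (1 - z)).re = (1 - normSq z) / normSq (1 - z) := by
        rw [div_re, ← add_div]
        congr 1
        simp only [normSq_apply, add_re, sub_re, one_re, add_im, sub_im, one_im]
        ring
      rw [h2]
      apply div_pos _ hn
      have : normSq z < 1 := by
        rw [normSq_eq_norm_sq]
        nlinarith [norm_nonneg z]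
      linarith
    · intro n hn
      obtain ⟨m, rfl⟩ : ∃ m, n = m + 1 := ⟨n - 1, by omega⟩
      have e1 : coef g (m+1) =
          ((PowerSeries.coeff m (Q139.Baz.pw (1 / α) (2 * Q139.Baz.Tα α - 1)) : ℝ) : ℂ) := by
        have h2 := Q139.Baz.main_extremal (toBranch hlg) (b := 1) h0 h1.le hext m
        rw [← Q139.Baz.tc_f (toBranch hlg)] at h2
        exact h2
      rw [e1]
      refine ⟨ofReal_im _, ?_⟩
      rintro f ⟨hfA, hfne, l, hl, hpos⟩
      rw [ofReal_re]
      have h2 := Q139.Baz.main_bound (toBranch hl) (b := 1) h0 h1.le h1 hpos m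
      rw [← Q139.Baz.tc_f (toBranch hl)] at h2
      exact h2

end Pool.Agent.Results.MP_0e1b7e_an.CoefBound
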